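import Pool.Agent.H.MP_36bee3_al.A

set_option maxHeartbeats 400000

namespace Pool.Agent.H.MP_25c7a1_al

open Subgroup Pool.Agent.Lib.Fitting Pool.Agent.H.MP_36bee3_al
open scoped commutatorElement

variable {G K : Type} [Group G] [Group K] {F : (G : Type) → [Group G] → Prop}
  {A B H J T U V Z : Subgroup G} {a g v : G} {p : ℕ}

/-- the abnormality condition at one element -/
def ab (A : Subgroup G) (g : G) : Prop := g ∈ A ⊔ A.map (MulAut.conj g).toMonoidHom

theorem cj (g : G) (h : a ∈ A) : g * a * g⁻¹ ∈ A ⊔ A.map (MulAut.conj g).toMonoidHom :=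
  mem_sup_right ⟨a, h, rfl⟩

theorem ab.mono (h : ab A g) (l : A ≤ B) : ab B g := sup_le_sup l (map_mono l) h

theorem ab.right (h : ab A g) (ha : a ∈ A) : ab A (g * a) := by
  refine mul_mem (SetLike.le_def.1 (sup_le le_sup_left ?_) h) (mem_sup_left ha)
  rintro _ ⟨x, hx, rfl⟩
  simpa [mul_assoc] using cj (g * a) (mul_mem (mul_mem (inv_mem ha) hx) ha)

theorem ab.left (h : ab A g) (ha : a ∈ A) : ab A (a * g) := by
  refine mul_mem (mem_sup_left ha) (SetLike.le_def.1 (sup_le le_sup_left ?_) h)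
  rintro _ ⟨x, hx, rfl⟩
  simpa [mul_assoc] using mul_mem (mul_mem (mem_sup_left (inv_mem ha)) (cj (a * g) hx))
    (mem_sup_left ha)

theorem ab.map (h : ab A g) (φ : G →* K) : ab (A.map φ) (φ g) := by
  refine (sup_le (fun x hx => mem_sup_left (mem_map_of_mem φ hx)) ?_ :
    _ ≤ comap φ (A.map φ ⊔ (A.map φ).map (MulAut.conj (φ g)).toMonoidHom)) h
  rintro _ ⟨x, hx, rfl⟩
  simpa using cj (A := A.map φ) (φ g) ⟨x, hx, rfl⟩

theorem ab.sub (l : A ≤ H) {g : H} (h : ab A g.1) : ab (A.subgroupOf H) g := by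
  obtain ⟨y, hy, e⟩ := (sup_le (fun x hx => ⟨⟨x, l hx⟩, mem_sup_left hx, rfl⟩) (by
    rintro _ ⟨x, hx, rfl⟩
    exact ⟨_, cj (A := A.subgroupOf H) (a := ⟨x, l hx⟩) g hx, rfl⟩) : _ ≤ Subgroup.map H.subtype
      (A.subgroupOf H ⊔ (A.subgroupOf H).map (MulAut.conj g).toMonoidHom)) h
  exact (Subtype.ext e : y = g) ▸ hy

theorem dec (h : B ≤ normalizer A) (hg : g ∈ A ⊔ B) : ∃ a ∈ A, ∃ b ∈ B, a * b = g := by
  rw [← SetLike.mem_coe, coe_mul_of_right_le_normalizer_left _ _ h] at hg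
  exact hg

theorem nm (h : g ∈ normalizer (A : Set G)) (ha : a ∈ A) : g * a * g⁻¹ ∈ A :=
  (mem_normalizer_iff.1 h a).1 ha

/-- the normal closure of `C` in `H` is `H` -/
def nc (H C : Subgroup G) : Prop := ∀ N : Subgroup G, H ≤ normalizer N → C ≤ N → H ≤ N

theorem nc.of (h : ∀ g ∈ H, ab A g) : nc H A := fun _ n l g hg =>
  sup_le l (by rintro _ ⟨a, ha, rfl⟩; exact nm (n hg) (l ha)) (h g hg)

theorem nc.trans (l : B ≤ H) (h : nc B A) (h' : nc H B) : nc H A :=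
  fun N n a => h' N n (h N (l.trans n) a)

theorem nc.mono (h : nc H A) (l : A ≤ B) : nc H B := fun N n a => h N n (l.trans a)

theorem powm (h : g ∈ normalizer (A : Set G)) (ha : a ∈ A) (n : ℕ) :
    ∃ b ∈ A, (a * g) ^ n = b * g ^ n := by
  induction n with
  | zero => exact ⟨1, one_mem _, by simp⟩
  | succ n ih =>
    obtain ⟨b, hb, e⟩ := ih
    exact ⟨a * (g * b * g⁻¹), mul_mem ha (nm h hb), by rw [pow_succ', e, pow_succ']; group⟩

/-- `p`-group modulo a subgroup -/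
def PQ (p : ℕ) (J U : Subgroup G) : Prop := ∀ u ∈ U, ∃ k, u ^ p ^ k ∈ J

theorem PQ.sup (h : PQ p J Z) (h' : PQ p J U) (n : U ≤ normalizer Z) (n' : Z ≤ normalizer J) :
    PQ p J (Z ⊔ U) := fun g hg => by
  obtain ⟨z, hz, u, hu, rfl⟩ := dec n hg
  obtain ⟨k, hk⟩ := h' u hu
  obtain ⟨y, hy, e⟩ := powm (n hu) hz (p ^ k)
  obtain ⟨j, hj⟩ := h y hy
  obtain ⟨x, hx, e'⟩ := powm (n' hy) (nm (n' hy) hk) (p ^ j)
  exact ⟨k + j, by
    rw [pow_add, pow_mul, e, ← inv_mul_cancel_right (y * _) y, e']; exact mul_mem hx hj⟩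

theorem PQ.of (h : IsPGroup p U) : PQ p J U := fun u hu => by
  obtain ⟨k, e⟩ := h ⟨u, hu⟩
  exact ⟨k, (show u ^ p ^ k = 1 from congrArg Subtype.val e).symm ▸ one_mem J⟩

theorem PQ.le (h : U ≤ J) : PQ p J U := fun _ hu => ⟨0, by simpa using h hu⟩

variable [Finite G]

theorem mkn (h : ∀ g ∈ B, ∀ a ∈ A, g * a * g⁻¹ ∈ A) : B ≤ normalizer A :=
  fun g hg => mem_normalizer_fintype (h g hg)

theorem ncomm (h : H ≤ normalizer A) (h' : H ≤ normalizer B) :
    H ≤ normalizer (⁅A, B⁆ : Subgroup G) := mkn fun g hg _ ha =>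
  (commutator_le (H₃ := ⁅A, B⁆.comap (MulAut.conj g).toMonoidHom)).2 (fun a ha b hb =>
    show g * ⁅a, b⁆ * g⁻¹ ∈ _ from conjugate_commutatorElement a b g ▸
      commutator_mem_commutator (nm (h hg) ha) (nm (h' hg) hb)) ha

theorem nsup (h : H ≤ normalizer A) (h' : H ≤ normalizer B) :
    H ≤ normalizer (A ⊔ B : Subgroup G) := mkn fun g hg _ ha =>
  (sup_le (fun _ ha => mem_sup_left (nm (h hg) ha)) fun _ hb => mem_sup_right (nm (h' hg) hb) :
    _ ≤ (A ⊔ B).comap (MulAut.conj g).toMonoidHom) ha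

variable [hp : Fact p.Prime]

theorem fixp (hU : ¬ p ∣ Nat.card U) (hT : IsPGroup p T) (hn : ∀ n ∈ T, ∀ u ∈ U, n * u * n⁻¹ ∈ U)
    (hv : ∀ n ∈ T, ⁅n, v⁆ ∈ U) : ∃ b ∈ centralizer (T : Set G), b * v⁻¹ ∈ U := by
  letI : MulAction T {y // y * v⁻¹ ∈ U} :=
    { smul := fun q y => ⟨q * y * (q : G)⁻¹, by
        simpa [commutatorElement_def, mul_assoc] using mul_mem (hn q q.2 _ y.2) (hv q q.2)⟩
      one_smul := fun y => Subtype.ext (by show (1 : G) * y * 1⁻¹ = y; simp)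
      mul_smul := fun a b y => Subtype.ext (by
        show (a * b : G) * y * (a * b : G)⁻¹ = a * (b * y * (b : G)⁻¹) * (a : G)⁻¹
        group) }
  obtain ⟨⟨b, hb⟩, h2⟩ := hT.nonempty_fixed_point_of_prime_not_dvd_card {y // y * v⁻¹ ∈ U} (by
    rwa [Nat.card_congr ((Equiv.mulRight v⁻¹).subtypeEquiv (p := fun y => y * v⁻¹ ∈ U)
      (q := (· ∈ U)) fun _ => Iff.rfl)])
  exact ⟨b, fun q hq => mul_inv_eq_iff_eq_mul.1 (congrArg Subtype.val (h2 ⟨q, hq⟩)), hb⟩

theorem abV (hV : ¬ p ∣ Nat.card V) (hT : IsPGroup p T) (hn : T ≤ normalizer V)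
    (hc : V ⊓ centralizer T ≤ A) (ha : ∀ n ∈ T, ∃ b ∈ A, ∀ v ∈ V, n * v * n⁻¹ = b * v * b⁻¹)
    (hv : v ∈ V) : ab A v := by
  obtain ⟨b, b1, b2⟩ := fixp (U := V ⊓ (A ⊔ A.map (MulAut.conj v).toMonoidHom)) (v := v)
    (fun h => hV (h.trans (card_dvd_of_le inf_le_left))) hT (fun n h u hu => by
      obtain ⟨b, hb, e⟩ := ha n h
      exact ⟨nm (hn h) hu.1, e u hu.1 ▸ mul_mem (mul_mem (mem_sup_left hb) hu.2)
        (mem_sup_left (inv_mem hb))⟩) fun n h => by
      obtain ⟨b, hb, e⟩ := ha n h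
      refine ⟨V.mul_mem (nm (hn h) hv) (inv_mem hv), ?_⟩
      rw [commutatorElement_def, e v hv, mul_assoc, mul_assoc, ← mul_assoc v]
      exact mul_mem (mem_sup_left hb) (cj v (inv_mem hb))
  exact (inv_mem_iff).1 ((mul_mem_cancel_left (mem_sup_left (hc
    ⟨(mul_mem_cancel_right (inv_mem hv)).1 b2.1, b1⟩))).1 b2.2)

theorem abS (S : Sylow p G) (g : G) : ab (normalizer (S : Set G)) g := by
  have h1 : (S : Subgroup G) ≤ normalizer (S : Set G) ⊔
      (normalizer (S : Set G)).map (MulAut.conj g).toMonoidHom := le_normalizer.trans le_sup_left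
  have h2 : (g • S : Sylow p G).1 ≤ normalizer (S : Set G) ⊔
      (normalizer (S : Set G)).map (MulAut.conj g).toMonoidHom :=
    (map_mono le_normalizer).trans le_sup_right
  obtain ⟨j, hj⟩ := MulAction.exists_smul_eq
    ↥(normalizer (S : Set G) ⊔ (normalizer (S : Set G)).map (MulAut.conj g).toMonoidHom) (S.subtype h1) ((g • S).subtype h2)
  rw [Sylow.smul_subtype] at hj
  have := Sylow.smul_eq_iff_mem_normalizer.1 (show (j.1⁻¹ * g) • S = S by
    rw [mul_smul, ← Sylow.subtype_injective hj]; exact inv_smul_smul j.1 S)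
  simpa [ab] using mul_mem j.2 (mem_sup_left this)

theorem subp [V.Normal] (h : PQ p V ⊤) (l : V ≤ U) : U.IsSubnormal := by
  have : IsPGroup p (G ⧸ V) := fun g => by
    obtain ⟨g, rfl⟩ := QuotientGroup.mk_surjective g
    exact (h g trivial).imp fun _ e => (QuotientGroup.eq_one_iff _).2 e
  have := this.isNilpotent
  have a : ∀ U : Subgroup (G ⧸ V), U.IsSubnormal := fun U => by
    induction U using WellFoundedGT.induction with
    | ind U ih =>
      by_cases e : U = ⊤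
      · exact e ▸ .top
      · exact .step _ _ le_normalizer (ih _ (Group.normalizerCondition_of_isNilpotent U
          (lt_top_iff_ne_top.2 e))) ((normal_subgroupOf_iff_le_normalizer le_normalizer).2 le_rfl)
  have := (a (U.map (QuotientGroup.mk' V))).comap (QuotientGroup.mk' V)
  rwa [comap_map_eq, QuotientGroup.ker_mk', sup_eq_left.2 l] at this

/-- Fitting classes closed under products of abnormal subgroups -/
structure AFc (F : (G : Type) → [Group G] → Prop) : Prop where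
  fit : Fit F
  u : F Unit
  af : ∀ (G : Type) [Group G] [Finite G], Group.IsSolvable G → ∀ A B : Subgroup G,
    (∀ g, ab A g) → (∀ g, ab B g) → nc ⊤ (A ⊓ B) → F A → F B → (∀ g : G, ∃ a ∈ A, ∃ b ∈ B, a * b = g) → F G

variable (hF : AFc F)
include hF

omit hp

theorem AFc.so (l : A ≤ H) (h : F A) : F (A.subgroupOf H) :=
  hF.fit.1 _ _ ⟨(subgroupOfEquivOfLe l).symm⟩ h

theorem AFc.map [Finite K] {φ : G →* K} (hφ : Function.Injective φ) (h : F A) : F (A.map φ) :=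
  hF.fit.1 _ _ ⟨equivMapOfInjective _ _ hφ⟩ h

theorem AFc.rel [Group.IsSolvable G] (lA : A ≤ H) (lB : B ≤ H) (hA : ∀ g ∈ H, ab A g)
    (hB : ∀ g ∈ H, ab B g) (hc : nc H (A ⊓ B)) (fA : F A) (fB : F B) (e : ∀ g ∈ H, ∃ a ∈ A, ∃ b ∈ B, a * b = g) :
    F H :=
  hF.af H inferInstance _ _ (fun g => (hA _ g.2).sub lA) (fun g => (hB _ g.2).sub lB)
    (fun N n l g _ => by
      obtain ⟨y, hy, e⟩ := hc (N.map H.subtype) (fun x hx => le_normalizer_map H.subtype
        ⟨⟨x, hx⟩, n trivial, rfl⟩) (fun x hx => ⟨⟨x, lA hx.1⟩, l hx, rfl⟩) g.2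
      exact (Subtype.ext e : y = g) ▸ hy)
    (hF.so lA fA) (hF.so lB fB) fun g => by
      obtain ⟨a, ha, b, hb, e⟩ := e g g.2
      exact ⟨⟨a, lA ha⟩, ha, ⟨b, lB hb⟩, hb, Subtype.ext e⟩

theorem AFc.top : F G ↔ ∀ g, g ∈ rad F G :=
  ⟨fun h g => le_rad inferInstance (hF.fit.top.2 h) (mem_top g), fun h =>
    hF.fit.top.1 ((eq_top_iff' _).2 h ▸ (rad_spec hF.fit hF.u).2)⟩

theorem AFc.sn (h : U.IsSubnormal) : F U ↔ U ≤ rad F G := by
  have : ∀ x : U, x ∈ rad F U ↔ x.1 ∈ rad F G := by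
    induction h with
    | top => exact fun x => (sub_iff hF.fit hF.u x).symm
    | step H K l _ n ih =>
      have : (inclusion l).range.Normal := by rwa [inclusion_range]
      exact fun x => (rad_iff hF.fit hF.u _ (inclusion_injective l) x).symm.trans (ih _)
  exact hF.top.trans ⟨fun h x hx => (this ⟨x, hx⟩).1 (h _), fun h x => (this x).2 (h x.2)⟩

include hp in
theorem AFc.gen (l : J ≤ U) (n1 : U ≤ normalizer Z) (n2 : Z ≤ normalizer J)
    (n3 : U ≤ normalizer J) (p1 : PQ p J Z) (p2 : PQ p J U) (fZ : F Z) (fU : F U) :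
    F ↥(Z ⊔ U) := by
  have := (normal_subgroupOf_iff_le_normalizer (l.trans le_sup_right)).2 (sup_le n2 n3)
  have := (normal_subgroupOf_iff_le_normalizer le_sup_left).2 (sup_le le_normalizer n1)
  have a := (hF.sn (subp (U := U.subgroupOf _) (V := J.subgroupOf (Z ⊔ U)) (fun g _ => p1.sup p2 n1 n2 g.1 g.2)
    (comap_mono l))).1 (hF.so le_sup_right fU)
  have b := sup_le (le_rad this (hF.so le_sup_left fZ)) a
  rw [← subgroupOf_sup le_sup_left le_sup_right, subgroupOf_self] at b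
  exact hF.top.2 fun g => b (mem_top g)

theorem AFc.dn (l : A ≤ H) (n : H ≤ normalizer A) (h : F H) : F A :=
  hF.fit.down l ((normal_subgroupOf_iff_le_normalizer l).2 n) h

theorem AFc.sup (n : A ≤ normalizer B) (n' : B ≤ normalizer A) (h : F A) (h' : F B) :
    F ↥(A ⊔ B) :=
  hF.fit.sup le_sup_left le_sup_right
    ((normal_subgroupOf_iff_le_normalizer le_sup_left).2 (sup_le le_normalizer n'))
    ((normal_subgroupOf_iff_le_normalizer le_sup_right).2 (sup_le n le_normalizer)) h h'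

end Pool.Agent.H.MP_25c7a1_al
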