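import Pool.Agent.H.MP_25c7a1_al.A

set_option maxHeartbeats 400000

namespace Pool.Agent.H.MP_25c7a1_al

open Subgroup Pool.Agent.Lib.Fitting Pool.Agent.H.MP_36bee3_al
open scoped commutatorElement

variable {G K : Type} [Group G] [Group K] {F : (G : Type) → [Group G] → Prop}
  {P X Q : Subgroup G} {c : G} {p t : ℕ} [hp : Fact p.Prime] [ht : Fact t.Prime]

/-- all finite `p`-groups belong to the class -/
def Pi (F : (G : Type) → [Group G] → Prop) (p : ℕ) : Prop :=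
  ∀ (G : Type) [Group G] [Finite G], IsPGroup p G → F G

/-- all `p`-by-`t` groups belong to the class -/
def L (F : (G : Type) → [Group G] → Prop) (p t : ℕ) : Prop :=
  ∀ (G : Type) [Group G] [Finite G] (P : Subgroup G) [P.Normal], IsPGroup p P → PQ t P ⊤ → F G

instance rl : (MonoidHom.inl G K).range.Normal := ⟨by
  rintro _ ⟨a, rfl⟩ g
  exact ⟨g.1 * a * g.1⁻¹, by simp [Prod.ext_iff]⟩⟩

instance rr : (MonoidHom.inr G K).range.Normal := ⟨by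
  rintro _ ⟨a, rfl⟩ g
  exact ⟨g.2 * a * g.2⁻¹, by simp [Prod.ext_iff]⟩⟩

theorem tr (n : p ≠ t) (hX : IsPGroup p X) (hQ : IsPGroup t Q) (h : c ∈ X) (h' : c ∈ Q) : c = 1 :=
  disjoint_def.1 (IsPGroup.disjoint_of_ne p t n X Q hX hQ) h h'

omit hp ht in
theorem pz {k : ℕ} (h : c ^ t ^ k = 1) : IsPGroup t (zpowers c) := by
  rintro ⟨_, n, rfl⟩
  exact ⟨k, Subtype.ext (show (c ^ n) ^ t ^ k = 1 by
    rw [← zpow_natCast, ← zpow_mul, mul_comm, zpow_mul, zpow_natCast, h, one_zpow])⟩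

variable [Finite G]

theorem nd (n : p ≠ t) (h : IsPGroup p X) : ¬ t ∣ Nat.card X := fun e => by
  obtain ⟨k, hk⟩ := h.exists_card_eq
  exact n ((Nat.prime_dvd_prime_iff_eq ht.1 hp.1).1 (ht.1.dvd_of_dvd_pow (hk ▸ e))).symm

omit hp in
theorem unif [P.Normal] (h : PQ t P ⊤) : ∃ m, ∀ g, g ^ t ^ m ∈ P := by
  have : IsPGroup t (G ⧸ P) := fun g => by
    obtain ⟨g, rfl⟩ := QuotientGroup.mk_surjective g
    exact (h g trivial).imp fun _ e => (QuotientGroup.eq_one_iff _).2 e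
  obtain ⟨m, hm⟩ := this.exists_card_eq
  exact ⟨m, fun g => hm ▸ P.pow_index_mem g⟩

theorem fix (n : p ≠ t) (hX : IsPGroup p X) (hQ : IsPGroup t Q) (hn : Q ≤ normalizer X)
    (hc : ∀ a ∈ X, ∀ b ∈ X, Commute a b) {z : G} (h1 : z ∈ ⁅X, Q⁆)
    (h2 : z ∈ centralizer (Q : Set G)) : z = 1 := by
  letI : CommGroup X := { (inferInstance : Group X) with
    mul_comm := fun a b => Subtype.ext (hc a a.2 b b.2) }
  have := Fintype.ofFinite Q
  let φ : Q →* MulAut X := X.normalizerMonoidHom.comp (inclusion hn)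
  let ν : X →* X := MonoidHom.mk' (fun a => ∏ q : Q, φ q a) fun a b => by
    simp [Finset.prod_mul_distrib]
  have h3 : ⁅X, Q⁆ ≤ ν.ker.map X.subtype := commutator_le.2 fun a ha q hq => by
    refine ⟨⟨a, ha⟩ * φ ⟨q, hq⟩ ⟨a, ha⟩⁻¹, ?_, by
      show a * (q * a⁻¹ * q⁻¹) = _
      simp [commutatorElement_def, mul_assoc]⟩
    have : ν (φ ⟨q, hq⟩ ⟨a, ha⟩⁻¹) = ν ⟨a, ha⟩⁻¹ :=
      Fintype.prod_equiv (Equiv.mulRight ⟨q, hq⟩) _ _ fun r => by simp
    show ν _ = 1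
    rw [map_mul, this, ← map_mul, mul_inv_cancel, map_one]
  obtain ⟨w, hw, rfl⟩ := h3 h1
  obtain ⟨m, hm⟩ := hQ.exists_card_eq
  refine tr n hX (pz (k := m) ?_) w.2 (mem_zpowers _)
  have : ν w = w ^ t ^ m := by
    rw [← hm, Nat.card_eq_fintype_card, ← Finset.card_univ, ← Finset.prod_const]
    exact Finset.prod_congr rfl fun q _ => Subtype.ext (mul_inv_eq_iff_eq_mul.2 (h2 q q.2))
  exact congrArg Subtype.val (this.symm.trans hw)

omit hp ht [Finite G] in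
theorem pprod {Y : Subgroup K} (h : IsPGroup p X) (h' : IsPGroup p Y) : IsPGroup p (X.prod Y) :=
  fun g => by
    obtain ⟨k, hk⟩ := h ⟨_, g.2.1⟩
    obtain ⟨j, hj⟩ := h' ⟨_, g.2.2⟩
    refine ⟨k + j, Subtype.ext (Prod.ext ?_ ?_)⟩
    · show g.1.1 ^ p ^ (k + j) = 1
      rw [pow_add, pow_mul, show g.1.1 ^ p ^ k = 1 from congrArg Subtype.val hk, one_pow]
    · show g.1.2 ^ p ^ (k + j) = 1
      rw [pow_add, pow_mul', show g.1.2 ^ p ^ j = 1 from congrArg Subtype.val hj, one_pow]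

theorem lock (hF : AFc F) [Group.IsSolvable G] [P.Normal] (n : p ≠ t) (πp : Pi F p) (πt : Pi F t)
    (hP : IsPGroup p P) (hq : PQ t P ⊤) {k : ℕ} (hc : c ^ t ^ k = 1)
    (h : (c, c⁻¹) ∈ rad F (G × G)) : c ∈ rad F G := by
  obtain ⟨m, hm⟩ := unif hq
  set Y := (P ⊓ centralizer (zpowers c)) ⊔ zpowers c
  have fY : F Y := hF.sup (inf_le_right.trans (centralizer_le_normalizer _))
    (mkn fun g hg a ha => by rw [ha.2 g hg, mul_inv_cancel_right]; exact ha)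
    (πp _ hP.to_inf_left) (πt _ (pz hc))
  let c' : Y := ⟨c, mem_sup_right (mem_zpowers c)⟩
  have il : ∀ {K : Type} [Group K] [Finite K], (((c, c⁻¹), 1) : (G × G) × K) ∈ rad F _ :=
    fun {K} _ _ => (rad_iff hF.fit hF.u (MonoidHom.inl (G × G) K) (fun _ _ e => congrArg Prod.fst e) _).2 h
  have f1 : F ↥((P.prod P).prod (P.subgroupOf Y) ⊔ zpowers ((c, c⁻¹), c')) :=
    (hF.sn (subp (p := t) (V := (P.prod P).prod (P.subgroupOf Y))
      (fun g _ => ⟨m, ⟨hm _, hm _⟩, hm _⟩) le_sup_left)).2 (sup_le (le_rad inferInstance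
      (πp _ (pprod (pprod hP hP) hP.comap_subtype))) (zpowers_le.2 (by
        simpa using mul_mem il ((rad_iff hF.fit hF.u (MonoidHom.inr _ _)
          (fun _ _ e => congrArg Prod.snd e) _).2 (hF.top.1 fY c')))))
  have key : ∀ φ : (G × G) × Y →* (G × G) × G, φ ((c, c⁻¹), c') = ((c, c⁻¹), c) →
      (∀ x ∈ (P.prod P).prod (P.subgroupOf Y), φ x ∈ (P.prod P).prod P) →
      (∀ x ∈ (P.prod P).prod P, x.1.1 ∈ Y → x.2 ∈ Y → ∃ y ∈ (P.prod P).prod (P.subgroupOf Y),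
        φ y = x) → ((P.prod P).prod (P.subgroupOf Y) ⊔ zpowers ((c, c⁻¹), c')).map φ ≤
        (P.prod P).prod P ⊔ zpowers ((c, c⁻¹), c) ∧
        (P.prod P).prod P ⊓ centralizer (zpowers ((c, c⁻¹), c)) ⊔ zpowers ((c, c⁻¹), c) ≤
        ((P.prod P).prod (P.subgroupOf Y) ⊔ zpowers ((c, c⁻¹), c')).map φ :=
    fun φ e a b => by
      rw [Subgroup.map_sup, MonoidHom.map_zpowers, e]
      refine ⟨sup_le_sup_right (map_le_iff_le_comap.2 a) _, sup_le_sup_right (fun z hz =>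
        b z hz.1 (mem_sup_left ⟨hz.1.1.1, ?_⟩) (mem_sup_left ⟨hz.1.2, ?_⟩)) _⟩
      · rintro _ ⟨j, rfl⟩
        exact congrArg (·.1.1) (hz.2 _ ⟨j, rfl⟩)
      · rintro _ ⟨j, rfl⟩
        exact congrArg (·.2) (hz.2 _ ⟨j, rfl⟩)
  have a0 : ∀ g ∈ (P.prod P).prod P ⊔ zpowers ((c, c⁻¹), c), ab ((P.prod P).prod P ⊓
      centralizer (zpowers ((c, c⁻¹), c)) ⊔ zpowers ((c, c⁻¹), c)) g := fun g hg => by
    obtain ⟨x, hx, y, hy, rfl⟩ := dec le_normalizer_of_normal hg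
    exact (abV (nd n (pprod (pprod hP hP) hP)) (pz (k := k) (by simp [hc]))
      le_normalizer_of_normal le_sup_left (fun n h => ⟨n, mem_sup_right h, fun _ _ => rfl⟩)
      hx).right (mem_sup_right hy)
  let φ : (G × G) × Y →* (G × G) × G := (MonoidHom.id _).prodMap Y.subtype
  let ψ : (G × G) × Y →* (G × G) × G :=
    MonoidHom.mk' (fun x => ((x.2.1, x.1.2), x.1.1)) fun _ _ => rfl
  obtain ⟨a1, a2⟩ := key φ rfl (fun x hx => hx) fun x hx _ h => ⟨(x.1, ⟨_, h⟩), hx, rfl⟩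
  obtain ⟨b1, b2⟩ := key ψ rfl (fun x hx => ⟨⟨hx.2, hx.1.2⟩, hx.1.1⟩) fun x hx h _ =>
    ⟨((x.2, x.1.2), ⟨_, h⟩), ⟨⟨hx.2, hx.1.2⟩, hx.1.1⟩, rfl⟩
  have f2 := hF.rel a1 b1 (fun g h => (a0 g h).mono a2) (fun g h => (a0 g h).mono b2)
    ((nc.of a0).mono (le_inf a2 b2)) (hF.map (fun x y e => Prod.ext (congrArg (·.1) e :)
    (Subtype.ext (congrArg Prod.snd e))) f1) (hF.map (fun x y e => Prod.ext (Prod.ext
    (congrArg Prod.snd e) (congrArg (·.1.2) e)) (Subtype.ext (congrArg (·.1.1) e))) f1)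
    fun g hg => by
      obtain ⟨x, hx, _, ⟨j, rfl⟩, rfl⟩ := dec le_normalizer_of_normal hg
      exact ⟨_, ⟨(x.1, 1), mem_sup_left ⟨hx.1, one_mem _⟩, rfl⟩, _,
        ⟨((x.2, 1), 1) * ((c, c⁻¹), c') ^ j, mul_mem (mem_sup_left ⟨⟨hx.2, one_mem _⟩, one_mem _⟩)
        (mem_sup_right ⟨j, rfl⟩), rfl⟩, by simp [φ, ψ, c', Prod.ext_iff]⟩
  have := (hF.sn (subp (p := t) (V := (P.prod P).prod P) (fun g _ => ⟨m, ⟨hm _, hm _⟩, hm _⟩)
    le_sup_left)).1 f2 (mem_sup_right (mem_zpowers _))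
  exact (rad_iff hF.fit hF.u (MonoidHom.inr (G × G) G) (fun _ _ e => congrArg Prod.snd e) _).1
    (show ((1, 1), c) ∈ _ by simpa using mul_mem (inv_mem il) this)

end Pool.Agent.H.MP_25c7a1_al
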