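import Pool.Agent.H.MP_25c7a1_al.B

set_option maxHeartbeats 800000

namespace Pool.Agent.H.MP_25c7a1_al

open Subgroup Pool.Agent.Lib.Fitting Pool.Agent.H.MP_36bee3_al RegularWreathProduct
open scoped commutatorElement

variable {G G0 Ω : Type} [Group G] [Group G0] [Group Ω] {F : (G : Type) → [Group G] → Prop}
  {p t : ℕ} [hp : Fact p.Prime] [ht : Fact t.Prime]

/-- linked primes -/
def W (F : (G : Type) → [Group G] → Prop) (t p : ℕ) : Prop :=
  Pi F t ∧ Pi F p ∧ t ≠ p ∧ ∃ (Γ : Type) (_ : Group Γ) (_ : Finite Γ) (_ : Group.IsSolvable Γ)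
    (V T : Subgroup Γ), IsPGroup t V ∧ IsPGroup p T ∧ T ≤ normalizer V ∧ V ≠ ⊥ ∧
      V ⊓ centralizer T ≤ ⊥ ∧ F ↥(V ⊔ T)

instance {ι : Type} [h : Group.IsSolvable G] : Group.IsSolvable (ι → G) := by
  obtain ⟨n, hn⟩ := h
  have : ∀ n, derivedSeries (ι → G) n ≤ pi Set.univ fun _ => derivedSeries G n := fun n => by
    induction n with
    | zero => exact fun _ _ _ _ => trivial
    | succ n ih => exact (commutator_mono ih ih).trans (commutator_pi_pi_le _ _)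
  exact ⟨n, le_bot_iff.1 ((this n).trans (by rw [hn, pi_bot]))⟩

/-- the base group -/
def bs : (Ω → G) →* G ≀ᵣ Ω := MonoidHom.mk' (fun f => ⟨f, 1⟩) fun f g => by ext <;> simp

instance [Group.IsSolvable G] [Group.IsSolvable Ω] : Group.IsSolvable (G ≀ᵣ Ω) :=
  Group.isSolvable_of_ker_le_range bs rightHom fun w h =>
    ⟨w.left, RegularWreathProduct.ext rfl (Eq.symm h)⟩

variable (G0) in
/-- the base group in the product -/
def β : (Ω → G) →* (G ≀ᵣ Ω) × G0 := (MonoidHom.inl _ _).comp bs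

theorem βi : Function.Injective (β G0 : (Ω → G) →* _) := fun _ _ e => congrArg (·.1.left) e

theorem cβ (ω : Ω) (g : G0) (f : Ω → G) :
    (inl ω, g) * β G0 f * (inl ω, g)⁻¹ = β G0 fun x => f (ω⁻¹ * x) := by
  ext <;> simp [β, bs]

variable [Finite G] [Finite G0] [Finite Ω]

theorem nE {X Y : Subgroup G0} (h : Y ≤ normalizer X) :
    (⊤ : Subgroup G).prod Y ≤ normalizer (X.map (MonoidHom.inr G G0)) := mkn (by
  rintro g hg _ ⟨x, hx, rfl⟩
  exact ⟨_, nm (h hg.2) hx, by simp [Prod.ext_iff]⟩)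

theorem nB (X : Subgroup G) : (inl.range.prod ⊤ : Subgroup ((G ≀ᵣ Ω) × G0)) ≤
    normalizer ((pi Set.univ fun _ : Ω => X).map (β G0) : Subgroup ((G ≀ᵣ Ω) × G0)) := mkn (by
  rintro ⟨_, g⟩ ⟨⟨ω, rfl⟩, -⟩ _ ⟨f, hf, rfl⟩
  exact ⟨_, fun x _ => hf _ trivial, (cβ ω g f).symm⟩)

omit hp [Finite G0] in
theorem pB {X : Subgroup G} (h : IsPGroup p X) :
    IsPGroup p ((pi Set.univ fun _ : Ω => X).map (β G0)) := IsPGroup.map (fun f => by
  choose k hk using fun x => h ⟨_, f.2 x trivial⟩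
  obtain ⟨m, hm⟩ := (Set.finite_range k).bddAbove
  refine ⟨m, Subtype.ext (funext fun x => ?_)⟩
  obtain ⟨j, rfl⟩ := Nat.exists_eq_add_of_le (hm ⟨x, rfl⟩)
  show f.1 x ^ p ^ (k x + j) = 1
  rw [pow_add, pow_mul, show f.1 x ^ p ^ k x = 1 from congrArg Subtype.val (hk x), one_pow]) _

theorem key (hF : AFc F) [Group.IsSolvable G] [Group.IsSolvable G0] [Group.IsSolvable Ω]
    (ρ : G0 →* Ω) {B N A : Subgroup G0} (lN : N ≤ B) (nN : B ≤ normalizer N) (lA : A ≤ B)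
    (hA : ∀ g ∈ B, ab A g) (fB : F B) (pN : IsPGroup p (N.map ρ)) (n : t ≠ p) (πp : Pi F p)
    (πt : Pi F t) (fA : (IsPGroup t (A.map ρ) ∧ F A) ∨ ∃ q, q.Prime ∧ IsPGroup q A ∧ L F t q)
    {ω : Ω} (hω : ω ∈ N.map ρ) (h1 : ω ≠ 1) {P : Subgroup G} [P.Normal] (hP : IsPGroup p P)
    (hq : PQ t P ⊤) {c : G} {k : ℕ} (hc : c ^ t ^ k = 1) :
    (c, c⁻¹) ∈ rad F (G × G) ∧ (c ≠ 1 → W F t p) := by
  classical
  let δ : G0 →* (G ≀ᵣ Ω) × G0 := (inl.comp ρ).prod (MonoidHom.id _)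
  let ε : G0 →* (G ≀ᵣ Ω) × G0 := MonoidHom.inr _ _
  have δi : Function.Injective δ := fun _ _ e => congrArg Prod.snd e
  set W0 := (pi Set.univ fun _ : Ω => zpowers c).map (β G0)
  set T : Subgroup ((G ≀ᵣ Ω) × G0) := ((N.map ρ).map inl).map (MonoidHom.inl _ _)
  set Λ : Subgroup ((G ≀ᵣ Ω) × G0) := ((B.map ρ).map inl).prod ⊤
  have lΛ : Λ ≤ inl.range.prod ⊤ := prod_mono (map_le_range _ _) le_rfl
  have nT : Λ ≤ normalizer T := mkn (by
    rintro ⟨_, g⟩ ⟨⟨_, ⟨b, hb, rfl⟩, rfl⟩, -⟩ _ ⟨_, ⟨_, ⟨x, hx, rfl⟩, rfl⟩, rfl⟩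
    exact ⟨_, ⟨_, ⟨_, nm (nN hb) hx, rfl⟩, rfl⟩, by simp [Prod.ext_iff]⟩)
  set V := ⁅W0, T⁆
  have nV : Λ ≤ normalizer V := ncomm (lΛ.trans (nB _)) nT
  have TΛ : T ≤ Λ := by
    rintro _ ⟨_, h, rfl⟩
    exact ⟨map_mono (map_mono lN) h, trivial⟩
  have dΛ : ∀ {X}, X ≤ B → X.map δ ≤ Λ := by
    rintro X l _ ⟨x, hx, rfl⟩
    exact ⟨⟨_, ⟨x, l hx, rfl⟩, rfl⟩, trivial⟩
  have eΛ : ∀ X : Subgroup G0, X.map ε ≤ Λ := by
    rintro X _ ⟨x, -, rfl⟩
    exact ⟨one_mem _, trivial⟩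
  have VW : V ≤ W0 := le_normalizer_iff_commutator_le_left.1 (TΛ.trans (lΛ.trans (nB _)))
  have pW : IsPGroup t W0 := pB (pz hc)
  have pV := pW.to_le VW
  have pT : IsPGroup p T := (pN.map _).map _
  have cV : V ⊓ centralizer T ≤ ⊥ := fun z hz => fix n pW pT (TΛ.trans (lΛ.trans (nB _))) (by
    rintro _ ⟨f, hf, rfl⟩ _ ⟨g, hg, rfl⟩
    refine Commute.map (funext fun x => ?_) _
    obtain ⟨i, hi⟩ := hf x trivial
    obtain ⟨j, hj⟩ := hg x trivial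
    show f x * g x = g x * f x
    rw [← hi, ← hj]
    exact Commute.zpow_zpow_self c i j) hz.1 hz.2
  have V2 : ∀ Y : Subgroup G0, V ≤ (⊤ : Subgroup (G ≀ᵣ Ω)).prod Y := fun Y v hv => by
    obtain ⟨f, -, rfl⟩ := VW hv
    exact ⟨trivial, one_mem Y⟩
  have d2 : ∀ Y : Subgroup G0, Y.map δ ≤ (⊤ : Subgroup (G ≀ᵣ Ω)).prod Y := by
    rintro Y _ ⟨x, hx, rfl⟩
    exact ⟨trivial, hx⟩
  have ed : ∀ X : Subgroup G0, (X ⊓ ρ.ker).map ε ≤ X.map δ := by
    rintro X _ ⟨x, hx, rfl⟩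
    exact ⟨x, hx.1, Prod.ext (by simp [δ, ε, show ρ x = 1 from hx.2]) rfl⟩
  have nk : ∀ X : Subgroup G0, X ≤ normalizer (X ⊓ ρ.ker : Subgroup G0) := fun X =>
    mkn fun g hg a ha => ⟨nm (le_normalizer hg) ha.1, Normal.conj_mem inferInstance _ ha.2 g⟩
  have pk : ∀ {s : ℕ} {X : Subgroup G0}, IsPGroup s (X.map ρ) → ∀ x ∈ X, ∃ k,
      ε x ^ s ^ k ∈ (X ⊓ ρ.ker).map ε ∧ δ x ^ s ^ k ∈ (X ⊓ ρ.ker).map ε := fun {s X} h x hx => by
    obtain ⟨k, hk⟩ := h ⟨_, x, hx, rfl⟩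
    have : ρ (x ^ s ^ k) = 1 := (map_pow ρ _ _).trans (congrArg Subtype.val hk)
    refine ⟨k, ⟨_, ⟨pow_mem hx _, this⟩, map_pow _ _ _⟩, _, ⟨pow_mem hx _, this⟩, ?_⟩
    rw [← map_pow]
    exact Prod.ext (by simp only [δ, ε, MonoidHom.prod_apply, MonoidHom.comp_apply, this]; simp) rfl
  have f1 : F ↥(V ⊔ A.map δ) := by
    rcases fA with ⟨a, b⟩ | ⟨q, hq, a, b⟩
    · exact hF.gen (ed A) ((dΛ lA).trans nV) ((V2 _).trans (nE (nk A))) ((d2 _).trans (nE (nk A)))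
        (.of pV) (by rintro _ ⟨x, hx, rfl⟩; exact (pk a x hx).imp fun _ h => h.2) (πt _ pV)
        (hF.map δi b)
    · have := (normal_subgroupOf_iff_le_normalizer le_sup_left).2
        (sup_le le_normalizer ((dΛ lA).trans nV))
      exact b _ (V.subgroupOf _) pV.comap_subtype fun g _ => (PQ.le le_rfl).sup (.of (a.map δ))
        ((dΛ lA).trans nV) le_normalizer g.1 g.2
  have aB : ∀ g ∈ V ⊔ B.map δ, ab (B.map δ) g := fun g hg => by
    obtain ⟨v, hv, b, hb, rfl⟩ := dec ((dΛ le_rfl).trans nV) hg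
    refine (abV (nd n pV) pT (TΛ.trans nV) (cV.trans bot_le) ?_ hv).right hb
    rintro _ ⟨_, ⟨_, ⟨x, hx, rfl⟩, rfl⟩, rfl⟩
    refine ⟨_, ⟨x, lN hx, rfl⟩, fun v hv => ?_⟩
    obtain ⟨f, -, rfl⟩ := VW hv
    exact (cβ _ _ f).trans (cβ _ _ f).symm
  have f2 : F ↥(V ⊔ B.map δ) := hF.rel (sup_le_sup_left (map_mono lA) _) le_sup_right
    (fun g hg => by
      obtain ⟨v, hv, _, ⟨b, hb, rfl⟩, rfl⟩ := dec ((dΛ le_rfl).trans nV) hg
      exact (((hA b hb).map δ).mono le_sup_right).left (mem_sup_left hv)) aB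
    ((nc.trans le_sup_right (.of (by rintro _ ⟨b, hb, rfl⟩; exact (hA b hb).map δ)) (.of aB)).mono
      (le_inf le_sup_right (map_mono lA))) f1 (hF.map δi fB) fun g hg =>
    (dec ((dΛ le_rfl).trans nV) hg).imp fun _ h => ⟨mem_sup_left h.1, h.2⟩
  have f3 : F ↥(V ⊔ N.map δ) := hF.dn (sup_le_sup_left (map_mono lN) _)
    (sup_le (le_sup_left.trans le_normalizer) (nsup ((dΛ le_rfl).trans nV)
      ((map_mono nN).trans (le_normalizer_map _)))) f2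
  have f4 : F ↥(N.map ε ⊔ (V ⊔ N.map δ)) := hF.gen (p := p) (sup_le_sup_left (ed N) V)
    ((sup_le (V2 N) (d2 N)).trans (nE le_normalizer))
    (nsup ((eΛ N).trans nV) ((map_mono (nk N)).trans (le_normalizer_map _)))
    (sup_le (le_sup_left.trans le_normalizer) (nsup ((dΛ lN).trans nV) ((d2 N).trans (nE (nk N)))))
    (by rintro _ ⟨x, hx, rfl⟩; exact (pk pN x hx).imp fun _ h => mem_sup_right h.1)
    ((PQ.le le_sup_left).sup (by
      rintro _ ⟨x, hx, rfl⟩; exact (pk pN x hx).imp fun _ h => mem_sup_right h.2)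
      ((dΛ lN).trans nV) (le_sup_left.trans le_normalizer))
    (hF.map (fun _ _ e => congrArg Prod.snd e) (hF.dn lN nN fB)) f3
  have f5 : F ↥(V ⊔ T) := hF.dn (sup_le (le_sup_left.trans le_sup_right) (by
      rintro _ ⟨_, ⟨_, ⟨x, hx, rfl⟩, rfl⟩, rfl⟩
      simpa [δ, ε] using mul_mem (mem_sup_right (mem_sup_right (mem_map_of_mem δ hx)))
        (mem_sup_left (T := V ⊔ N.map δ) (inv_mem (mem_map_of_mem ε hx)))))
    (sup_le (nsup ((eΛ N).trans nV) ((eΛ N).trans nT)) (sup_le (le_sup_left.trans le_normalizer)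
      (nsup ((dΛ lN).trans nV) ((dΛ lN).trans nT)))) f4
  let ι : G × G →* (Ω → G) := MonoidHom.mk'
    (fun g x => if x = 1 then g.1 else if x = ω then g.2 else 1) fun a b => by
      ext x; simp only [Pi.mul_apply]; split_ifs <;> simp
  have ιi : Function.Injective ι := fun a b e =>
    Prod.ext (by simpa [ι] using congrFun e 1) (by simpa [ι, h1] using congrFun e ω)
  have v0 : β G0 (ι (c, c⁻¹)) ∈ V := by
    have := commutator_mem_commutator (H₁ := W0) (H₂ := T) ⟨ι (c, 1), fun x _ => by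
      simp only [ι, MonoidHom.mk'_apply]; split_ifs <;> simp, rfl⟩ ⟨_, ⟨_, hω, rfl⟩, rfl⟩
    rw [commutatorElement_def, mul_assoc, mul_assoc, ← mul_assoc (MonoidHom.inl _ _ _), ← map_inv,
      MonoidHom.inl_apply, cβ, ← map_mul] at this
    refine (congrArg (fun f => β G0 f ∈ V) (funext fun x => ?_)).mp this
    by_cases a : x = 1 <;> by_cases b : x = ω <;> simp [ι, a, b, h1, h1.symm, inv_mul_eq_one, @eq_comm _ ω x]
  refine ⟨?_, fun h => ⟨πt, πp, n, _, _, inferInstance, inferInstance, V, T, pV, pT, TΛ.trans nV,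
    fun e => h (congrArg Prod.fst (ιi ((βi ((mem_bot.1 (e ▸ v0)).trans (map_one (β G0)).symm)).trans
      (map_one _).symm))), cV, f5⟩⟩
  have nP : (pi Set.univ fun _ : Ω => P).Normal :=
    ⟨fun f hf g x _ => Normal.conj_mem ‹_› _ (hf x trivial) _⟩
  set P0 := (pi Set.univ fun _ : Ω => P).map (β G0)
  have pP : IsPGroup p P0 := pB hP
  have n1 : V ≤ normalizer P0 := VW.trans ((map_mono le_normalizer_of_normal).trans
    (le_normalizer_map _))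
  have n2 : T ≤ normalizer P0 := TΛ.trans (lΛ.trans (nB _))
  have n3 : V ⊔ T ≤ normalizer V := sup_le le_normalizer (TΛ.trans nV)
  have aT : ∀ g ∈ V ⊔ T, ab T g := fun g hg => by
    obtain ⟨v, hv, s, hs, rfl⟩ := dec (TΛ.trans nV) hg
    exact (abV (nd n pV) pT (TΛ.trans nV) (cV.trans bot_le) (fun n h => ⟨n, h, fun _ _ => rfl⟩)
      hv).right hs
  have aP : ∀ g ∈ P0 ⊔ (V ⊔ T), ab (P0 ⊓ centralizer V ⊔ (V ⊔ T)) g := fun g hg => by
    obtain ⟨x, hx, u, hu, rfl⟩ := dec (sup_le n1 n2) hg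
    exact (abV (nd n.symm pP) pV n1 le_sup_left (fun n h => ⟨n, mem_sup_right (mem_sup_left h),
      fun _ _ => rfl⟩) hx).right (mem_sup_right hu)
  have f6 : F ↥(P0 ⊔ (V ⊔ T)) := hF.rel (sup_le_sup_left le_sup_right _)
    (sup_le_sup_right inf_le_left _) (fun g hg => by
      obtain ⟨x, hx, u, hu, rfl⟩ := dec (sup_le n1 n2) hg
      exact ((aT u hu).mono le_sup_right).left (mem_sup_left hx)) aP
    (fun N a b => nc.of aP N a (sup_le ((le_inf (inf_le_left.trans le_sup_left) le_sup_left).trans b)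
      (nc.of aT N (le_sup_right.trans a) ((le_inf le_sup_right
        (le_sup_right.trans le_sup_right)).trans b))))
    (πp _ (pP.to_sup_of_normal_left' pT n2))
    (hF.gen (p := p) le_sup_left (mkn fun g hg a ha => mem_inf.2 ⟨nm (sup_le n1 n2 hg) ha.1,
      (normal_subgroupOf_iff (centralizer_le_normalizer _)).1 inferInstance a g ha.2 (n3 hg)⟩)
      (inf_le_right.trans (centralizer_le_normalizer _)) n3 (.of pP.to_inf_left)
      ((PQ.le le_rfl).sup (.of pT) (TΛ.trans nV) le_normalizer) (πp _ pP.to_inf_left) f5)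
    fun g hg => by
      obtain ⟨x, hx, u, hu, rfl⟩ := dec (sup_le n1 n2) hg
      exact ⟨x, mem_sup_left hx, u, mem_sup_right hu, rfl⟩
  have f7 : F ↥(P0 ⊔ V) := hF.dn (sup_le_sup_left le_sup_left _)
    (sup_le (le_sup_left.trans le_normalizer) (nsup (sup_le n1 n2) n3)) f6
  rw [← map_comap_eq_self (VW.trans (map_le_range _ _)), ← Subgroup.map_sup] at f7
  obtain ⟨m, hm⟩ := unif hq
  have : ι.range.Normal := ⟨by
    rintro _ ⟨a, rfl⟩ g
    refine ⟨(g 1 * a.1 * (g 1)⁻¹, g ω * a.2 * (g ω)⁻¹), funext fun x => ?_⟩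
    by_cases a : x = 1 <;> by_cases b : x = ω <;> simp [ι, a, b, h1]⟩
  exact (rad_iff hF.fit hF.u ι ιi _).1 ((hF.sn (subp (p := t) (V := pi Set.univ fun _ => P)
    (fun g _ => ⟨m, fun x _ => hm _⟩) le_sup_left)).1 (hF.fit.1 _ _ ⟨(equivMapOfInjective _ _ βi).symm⟩ f7) (mem_sup_right v0))

end Pool.Agent.H.MP_25c7a1_al
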