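import Pool.Agent.H.MP_25c7a1_al.C

set_option maxHeartbeats 800000

namespace Pool.Agent.H.MP_25c7a1_al

open Subgroup Pool.Agent.Lib.Fitting Pool.Agent.H.MP_36bee3_al
open scoped commutatorElement

variable {G K : Type} [Group G] [Group K] {F : (G : Type) → [Group G] → Prop}
  {σ : ℕ → Prop} {x y : G} {p t : ℕ}

theorem keyL [hp : Fact p.Prime] [ht : Fact t.Prime] (hF : AFc F) [Finite G] [Finite K]
    [Group.IsSolvable G] [Group.IsSolvable K]
    (ρ : G →* K) {B N A : Subgroup G} (lN : N ≤ B) (nN : B ≤ normalizer N) (lA : A ≤ B)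
    (hA : ∀ g ∈ B, ab A g) (fB : F B) (pN : IsPGroup p (N.map ρ)) (n : t ≠ p) (πp : Pi F p)
    (πt : Pi F t) (fA : (IsPGroup t (A.map ρ) ∧ F A) ∨ ∃ q, q.Prime ∧ IsPGroup q A ∧ L F t q)
    {ω : K} (hω : ω ∈ N.map ρ) (h1 : ω ≠ 1) : L F p t ∧ W F t p := by
  have a : ∀ g : Multiplicative (ZMod t), g ^ t ^ 1 = 1 := fun g => by
    rw [pow_one]; exact Multiplicative.toAdd.injective (by simp)
  refine ⟨fun H _ _ P _ hP hq => hF.top.2 fun g => ?_, (key hF ρ lN nN lA hA fB pN n πp πt fA hω h1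
    (P := ⊥) IsPGroup.of_bot (fun g _ => ⟨1, a g⟩) (a (.ofAdd 1))).2 (by simp)⟩
  have : IsPGroup t (H ⧸ P) := fun g => by
    obtain ⟨g, rfl⟩ := QuotientGroup.mk_surjective g
    exact (hq g trivial).imp fun _ e => (QuotientGroup.eq_one_iff _).2 e
  have := this.isNilpotent
  have := hP.isNilpotent
  have := Group.isSolvable_of_ker_le_range P.subtype (QuotientGroup.mk' P) (by simp)
  obtain ⟨m, k, h1', h2⟩ := part ht.1 g
  obtain ⟨j, hj⟩ := hq g trivial
  exact bez (h1'.pow_right j) (lock hF n.symm πp πt hP hq h2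
    (key hF ρ lN nN lA hA fB pN n πp πt fA hω h1 hP hq h2).1) (le_rad ‹_› (πp _ hP) hj)

theorem Wk (hF : AFc F) {q : ℕ} (hp : p.Prime) (ht : t.Prime) (hq : q.Prime) (h : W F p q)
    (h' : t = q ∨ L F t q) (πt : Pi F t) (n : t ≠ p) : L F p t ∧ W F t p := by
  obtain ⟨a, b, c, Γ, _, _, _, V, T, pV, pT, nV, n0, cV, f⟩ := h
  have := Fact.mk hp
  have := Fact.mk ht
  have := Fact.mk hq
  obtain ⟨ω, h1, h2⟩ := (V.bot_or_exists_ne_one).resolve_left n0
  refine keyL hF (MonoidHom.id Γ) le_sup_left (sup_le le_normalizer nV) le_sup_right (fun g hg => ?_)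
    f (pV.map _) n a πt (h'.imp (fun e : t = q => ⟨e ▸ pT.map _, b _ pT⟩) fun l => ⟨q, hq, pT, l⟩)
    ⟨ω, h1, rfl⟩ h2
  obtain ⟨v, hv, s, hs, rfl⟩ := dec nV hg
  exact (abV (nd c pV) pT nV (cV.trans bot_le) (fun n h => ⟨n, h, fun _ _ => rfl⟩) hv).right hs

/-- elements whose order involves only primes in `σ` -/
def El (σ : ℕ → Prop) (x : G) : Prop := ∀ q, q.Prime → q ∣ orderOf x → σ q

theorem El.dvd {z : K} (h : El σ x) (d : orderOf z ∣ orderOf x) : El σ z :=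
  fun q a b => h q a (b.trans d)

theorem El.map (h : El σ x) (φ : G →* K) : El σ (φ x) := h.dvd (orderOf_map_dvd φ x)

theorem El.inv (h : El σ x) : El σ x⁻¹ := h.dvd (orderOf_inv x).dvd

theorem El.conj (h : El σ x) (g : G) : El σ (g * x * g⁻¹) := h.map (MulAut.conj g).toMonoidHom

theorem El.of {n : ℕ} (h : El σ (x ^ n)) (hn : ∀ q, q.Prime → q ∣ n → σ q) : El σ x :=
  fun q a b => ((Nat.Prime.dvd_mul a).1 (b.trans (orderOf_dvd_of_pow_eq_one
    (by rw [pow_mul, pow_orderOf_eq_one])))).elim (hn q a) (h q a)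

theorem El.one : El σ (1 : G) := fun q a b => by
  rw [orderOf_one] at b
  exact (a.one_lt.ne' (Nat.dvd_one.1 b)).elim

theorem El.pr {k : ℕ} (h : El σ (x ^ p ^ k)) (hp : p.Prime) (s : σ p) : El σ x :=
  h.of fun q a b => (Nat.prime_dvd_prime_iff_eq a hp).1 (a.dvd_of_dvd_pow b) ▸ s

theorem El.both (h : El σ x) (h' : El (fun q => ¬ σ q) x) : x = 1 :=
  orderOf_eq_one_iff.1 (Nat.eq_one_iff_not_exists_prime_dvd.2 fun q a b => h' q a b (h q a b))

theorem spl [Finite G] (σ : ℕ → Prop) (x : G) : ∃ a b : ℕ, (∀ q, q.Prime → q ∣ a → σ q) ∧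
    (∀ q, q.Prime → q ∣ b → ¬ σ q) ∧ x ^ (a * b) = 1 := by
  have : ∀ n : ℕ, n ≠ 0 → ∃ a b : ℕ, (∀ q, q.Prime → q ∣ a → σ q) ∧
      (∀ q, q.Prime → q ∣ b → ¬ σ q) ∧ a * b = n := fun n => by
    have o : ∀ {τ : ℕ → Prop} (q : ℕ), q.Prime → q ∣ 1 → τ q :=
      fun q a b => (a.one_lt.ne' (Nat.dvd_one.1 b)).elim
    have m : ∀ {τ : ℕ → Prop} {p a : ℕ}, p.Prime → τ p → (∀ q, q.Prime → q ∣ a → τ q) →
        ∀ q, q.Prime → q ∣ p * a → τ q := fun hp s h q a b => ((Nat.Prime.dvd_mul a).1 b).elim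
      (fun e => (Nat.prime_dvd_prime_iff_eq a hp).1 e ▸ s) (h q a)
    induction n using induction_on_primes with
    | zero => simp
    | one => exact fun _ => ⟨1, 1, o, o, rfl⟩
    | prime_mul p n hp ih =>
      intro h
      obtain ⟨a, b, h1, h2, rfl⟩ := ih (right_ne_zero_of_mul h)
      by_cases s : σ p
      exacts [⟨_, b, m hp s h1, h2, by ring⟩, ⟨a, _, h1, m (τ := fun q => ¬ σ q) hp s h2, by ring⟩]
  obtain ⟨a, b, h1, h2, e⟩ := this _ (orderOf_pos x).ne'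
  exact ⟨a, b, h1, h2, e ▸ pow_orderOf_eq_one x⟩

/-- sets of primes closed under linking -/
def Cs (F : (G : Type) → [Group G] → Prop) (σ : ℕ → Prop) : Prop :=
  ∀ p q, p.Prime → q.Prime → W F p q → (σ p ↔ σ q)

theorem Cs.not (h : Cs F σ) : Cs F fun q => ¬ σ q := fun p q a b c => (h p q a b c).not

/-- the formation -/
def D (F : (G : Type) → [Group G] → Prop) (G : Type) [Group G] : Prop :=
  (∀ x : G, El (Pi F) x) ∧ ∀ σ, Cs F σ → ∀ x y : G, El σ x → El σ y → El σ (x * y)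

theorem D.inj (h : D F G) (φ : K →* G) (hφ : Function.Injective φ) : D F K :=
  have a := fun x => (orderOf_injective φ hφ x).symm.dvd
  ⟨fun x => (h.1 _).dvd (a x), fun σ s x y hx hy =>
    (h.2 σ s _ _ (hx.map φ) (hy.map φ)).dvd (map_mul φ x y ▸ a _)⟩

theorem D.surj [Finite G] (h : D F G) (φ : G →* K) (hφ : Function.Surjective φ) : D F K := by
  refine ⟨fun x => (hφ x).elim fun y e => e ▸ (h.1 y).map φ, fun σ s x y hx hy => ?_⟩
  have : ∀ x, El σ x → ∃ y, El σ y ∧ φ y = x := fun x hx => by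
    obtain ⟨y, rfl⟩ := hφ x
    obtain ⟨a, b, h1, h2, e⟩ := spl σ y
    obtain ⟨m, hm⟩ := exists_pow_eq_self_of_coprime (x := φ y) (n := b)
      (Nat.coprime_of_dvd' fun q a c d => (h2 q a c (hx q a d)).elim)
    refine ⟨(y ^ b) ^ m, El.of (n := a) ?_ h1, by rw [map_pow, map_pow, hm]⟩
    rw [← pow_mul, mul_comm m, pow_mul, ← pow_mul y, mul_comm b, e, one_pow]
    exact .one
  obtain ⟨x, a, rfl⟩ := this x hx
  obtain ⟨y, b, rfl⟩ := this y hy
  exact map_mul φ x y ▸ (h.2 σ s _ _ a b).map φ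

theorem D.r0 {N M : Subgroup G} [N.Normal] [M.Normal] (e : N ⊓ M = ⊥) (h : D F (G ⧸ N))
    (h' : D F (G ⧸ M)) : D F G := by
  have : ∀ {σ} (x : G), El σ (x : G ⧸ N) → El σ (x : G ⧸ M) → El σ x := fun x a b => by
    refine El.of (El.of ?_ b) a
    rw [mem_bot.1 (e.le (mem_inf.2 ⟨pow_mem ((QuotientGroup.eq_one_iff _).1 (pow_orderOf_eq_one
      (x : G ⧸ N))) _, by
        rw [← pow_mul, mul_comm, pow_mul]
        exact pow_mem ((QuotientGroup.eq_one_iff _).1 (pow_orderOf_eq_one (x : G ⧸ M))) _⟩))]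
    exact .one
  exact ⟨fun x => this x (h.1 _) (h'.1 _), fun σ s x y a b => this _
    (h.2 σ s _ _ (a.map (QuotientGroup.mk' N)) (b.map (QuotientGroup.mk' N)))
    (h'.2 σ s _ _ (a.map (QuotientGroup.mk' M)) (b.map (QuotientGroup.mk' M)))⟩

/-- the `σ`-part of a subgroup -/
def sb (M : Subgroup G) (h : D F M) (s : Cs F σ) : Subgroup G where
  carrier := {x | x ∈ M ∧ El σ x}
  one_mem' := ⟨one_mem _, .one⟩
  inv_mem' := fun a => ⟨inv_mem a.1, a.2.inv⟩
  mul_mem' := fun {x y} a b => ⟨mul_mem a.1 b.1, (h.2 σ s ⟨x, a.1⟩ ⟨y, b.1⟩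
    (a.2.dvd (orderOf_mk ..).dvd) (b.2.dvd (orderOf_mk ..).dvd)).map M.subtype⟩

instance {M : Subgroup G} [n : M.Normal] (h : D F M) (s : Cs F σ) : (sb M h s).Normal :=
  ⟨fun x a g => ⟨n.conj_mem x a.1 g, a.2.conj g⟩⟩

variable [Finite G]

theorem exM [Nontrivial G] [Group.IsSolvable G] :
    ∃ M : Subgroup G, M.Normal ∧ M.index.Prime ∧ ⁅(⊤ : Subgroup G), ⊤⁆ ≤ M := by
  obtain ⟨M, h1, h2⟩ := (eq_top_or_exists_le_coatom (commutator G)).resolve_left
    (Group.IsSolvable.commutator_lt_top_of_nontrivial G).ne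
  have := Normal.of_commutator_le G h2
  obtain ⟨p, hp, hd⟩ := Nat.exists_prime_and_dvd (index_eq_one.not.2 h1.1)
  have := Fact.mk hp
  obtain ⟨g, hg⟩ := exists_prime_orderOf_dvd_card' (G := G ⧸ M) p hd
  have e := h1.2 ((zpowers g).comap (QuotientGroup.mk' M)) (lt_of_le_of_ne
    (QuotientGroup.le_comap_mk' _ _) fun e => by
      obtain ⟨g, rfl⟩ := QuotientGroup.mk_surjective g
      rw [(QuotientGroup.eq_one_iff g).2 (e.ge (mem_zpowers _)), orderOf_one] at hg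
      exact hp.ne_one hg.symm)
  rw [← comap_top (QuotientGroup.mk' M), (comap_injective (QuotientGroup.mk'_surjective M)).eq_iff]
    at e
  exact ⟨M, ‹_›, by rwa [index, ← card_top, ← e, Nat.card_zpowers, hg], h2⟩

theorem pm {M : Subgroup G} [M.Normal] (h : M.index.Prime) (e : ¬ M.index ∣ orderOf x) : x ∈ M :=
  bez ((Nat.Prime.coprime_iff_not_dvd h).2 e) (M.pow_index_mem x) (by simp)

theorem syl [Fact p.Prime] {J U : Subgroup G} [J.Normal] [U.Normal] (h : PQ p J U) (T : Sylow p G) :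
    U ≤ J ⊔ T := by
  have := Normal.map ‹U.Normal› _ (QuotientGroup.mk'_surjective J)
  have a : IsPGroup p (U.map (QuotientGroup.mk' J)) := by
    rintro ⟨_, u, hu, rfl⟩
    exact (h u hu).imp fun _ e => Subtype.ext ((QuotientGroup.eq_one_iff _).2 e)
  have := map_le_iff_le_comap.1
    (a.le_sylow_of_normal (T.mapSurjective (QuotientGroup.mk'_surjective J)))
  rwa [Sylow.coe_mapSurjective, comap_map_eq, QuotientGroup.ker_mk', sup_comm] at this

/-- generated by the elements of order prime to `p` -/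
def O (p : ℕ) (N : Subgroup G) : Subgroup G := closure {x | x ∈ N ∧ ¬ p ∣ orderOf x}

instance {N : Subgroup G} [n : N.Normal] : (O p N).Normal := ⟨fun _ h g =>
  (closure_le (K := (O p N).comap (MulAut.conj g).toMonoidHom)).2 (fun x a => subset_closure
    ⟨n.conj_mem x a.1 g, fun e => a.2 (e.trans (orderOf_map_dvd _ x))⟩) h⟩

theorem pO (hp : p.Prime) (N : Subgroup G) : PQ p (O p N) N := fun x hx => by
  obtain ⟨k, m, h1, h2⟩ := Nat.exists_eq_pow_mul_and_not_dvd (orderOf_pos x).ne' p hp.ne_one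
  exact ⟨k, subset_closure ⟨pow_mem hx _, fun e => h1 (e.trans (orderOf_dvd_of_pow_eq_one
    (by rw [← pow_mul, ← h2, pow_orderOf_eq_one])))⟩⟩

end Pool.Agent.H.MP_25c7a1_al
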