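import Pool.Agent.H.MP_25c7a1_al.D

set_option maxHeartbeats 800000

namespace Pool.Agent.H.MP_25c7a1_al

open Subgroup Pool.Agent.Lib.Fitting Pool.Agent.H.MP_36bee3_al
open scoped commutatorElement

variable {G K : Type} [Group G] [Group K] {F : (G : Type) → [Group G] → Prop}
  {σ : ℕ → Prop} {x y : G} {p t : ℕ} [Finite G]

theorem exN [Group.IsSolvable G] {N : Subgroup G} (h : N ≠ ⊥) : ∃ p : ℕ, p.Prime ∧
    (∃ x ∈ N, orderOf x = p) ∧ ¬ N ≤ ⁅N, N⁆ ⊔ O p N := by
  have := (nontrivial_iff_ne_bot N).2 h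
  obtain ⟨M, _, h1, h2⟩ := exM (G := N)
  have := Fact.mk h1
  obtain ⟨x, hx⟩ := exists_prime_orderOf_dvd_card' (G := N) _ M.index_dvd_card
  refine ⟨_, h1, ⟨x, x.2, (orderOf_coe x).trans hx⟩, fun l => h1.ne_one (index_eq_one.2
    (top_unique fun y _ => ?_))⟩
  have : ⁅N, N⁆ ⊔ O M.index N ≤ M.map N.subtype := sup_le
    (map_subtype_commutator N ▸ map_mono h2) ((closure_le _).2 fun x a =>
      ⟨⟨x, a.1⟩, pm h1 (by rw [orderOf_mk]; exact a.2), rfl⟩)
  obtain ⟨z, hz, e⟩ := this (l y.2)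
  exact (Subtype.ext e : z = y) ▸ hz

theorem lt_card {U : Subgroup G} (h : U ≠ ⊤) : Nat.card U < Nat.card G :=
  (card_le_card_group U).lt_of_ne fun e => h (eq_top_of_card_eq U e)

theorem DF (hF : AFc F) : ∀ (n : ℕ) (G : Type) [Group G] [Finite G] [Group.IsSolvable G],
    Nat.card G = n → D F G → F G := fun n => by
  induction n using Nat.strong_induction_on with
  | _ n IH =>
  intro G _ _ hs e h
  have ih : ∀ U : Subgroup G, U ≠ ⊤ → F U := fun U hU =>
    IH _ (e ▸ lt_card hU) U rfl (h.inj _ U.subtype_injective)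
  rcases subsingleton_or_nontrivial G with _ | _
  · exact hF.top.2 fun g => Subsingleton.elim 1 g ▸ one_mem _
  by_contra nF
  obtain ⟨M, _, hq, -⟩ := exM (G := G)
  have nM : M ≠ ⊤ := fun e => hq.ne_one (index_eq_one.2 e)
  have := Fact.mk hq
  obtain ⟨S⟩ : Nonempty (Sylow M.index G) := inferInstance
  have pM : PQ M.index M ⊤ := fun g _ => ⟨1, by rw [pow_one]; exact M.pow_index_mem g⟩
  have top : ∀ J : Subgroup G, J.Normal → ¬ O M.index ⊤ ≤ J → J ⊔ normalizer (S : Set G) ≠ ⊤ :=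
    fun J _ l e => by
      have : (J ⊔ S.1).Normal := normalizer_eq_top_iff.1 (top_unique (e ▸ sup_le
        (le_sup_left.trans le_normalizer) (nsup le_normalizer_of_normal le_rfl)))
      by_cases e' : J ⊔ S.1 = ⊤
      · refine l ((closure_le _).2 fun x a => ?_)
        obtain ⟨k, hk⟩ := ((PQ.le le_rfl).sup (.of S.2) le_normalizer_of_normal le_normalizer) x
          (e' ▸ mem_top x)
        exact bez (((Nat.Prime.coprime_iff_not_dvd hq).2 a.2).pow_left k) hk (by simp)
      · exact nF (hF.fit.top.1 (top_unique ((syl pM S).trans (sup_le_sup_left le_sup_right M)) ▸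
          hF.fit.2.2 _ _ _ ‹_› this (ih _ nM) (ih _ e')))
  by_cases h0 : O M.index (⊤ : Subgroup G) = ⊥
  · obtain ⟨x, hx⟩ := exists_prime_orderOf_dvd_card' _ M.index_dvd_card
    exact nF (h.1 x _ hq hx.symm.dvd G fun g => (pO hq ⊤ g trivial).imp fun _ a => h0.le a)
  obtain ⟨p, hp, ⟨z, -, hz⟩, l⟩ := exN h0
  have := Fact.mk hp
  obtain ⟨T⟩ : Nonempty (Sylow p G) := inferInstance
  have l' : ¬ O M.index ⊤ ≤ O p (O M.index (⊤ : Subgroup G)) := fun e => l (e.trans le_sup_right)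
  have n : p ≠ M.index := fun e => l' ((closure_le _).2 fun x a =>
    subset_closure ⟨subset_closure a, e ▸ a.2⟩)
  have af : ∀ B : Subgroup G, T.1 ≤ B → (∀ g, ab B g) →
      nc ⊤ ((O p (O M.index ⊤) ⊔ normalizer (S : Set G)) ⊓ B) → B ≠ ⊤ → False := fun B a b d c =>
    nF (hF.af G hs _ B (fun g => (abS S g).mono le_sup_right) b d (ih _ (top _ inferInstance l'))
      (ih _ c) fun g => by
        obtain ⟨x, hx, s, hs, e⟩ := mem_sup_of_normal_left.1 (syl (pO hq ⊤) S (mem_top g⁻¹))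
        obtain ⟨u, hu, v, hv, rfl⟩ := mem_sup_of_normal_right.1 (sup_comm _ T.1 ▸ syl (pO hp _) T hx)
        exact ⟨_, inv_mem (mul_mem (mem_sup_left hv) (mem_sup_right (le_normalizer hs))), _,
          inv_mem (a hu), by rw [← mul_inv_rev, ← mul_assoc, e, inv_inv]⟩)
  have aS : nc ⊤ (normalizer (S : Set G)) := .of fun g _ => abS S g
  have : T.1.Normal := normalizer_eq_top_iff.1 (by_contra (af _ le_normalizer (abS T)
    fun N a b => by_contra fun c => by
      have := normalizer_eq_top_iff.1 (top_unique a)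
      have tO : T.1 ≤ O M.index ⊤ := fun x hx => subset_closure ⟨trivial, fun e => by
        obtain ⟨k, hk⟩ := IsPGroup.iff_orderOf.1 T.2 ⟨x, hx⟩
        rw [orderOf_mk] at hk
        exact n ((Nat.prime_dvd_prime_iff_eq hq hp).1 (hq.dvd_of_dvd_pow (hk ▸ e))).symm⟩
      have e : O p (O M.index ⊤) ⊔ normalizer (T : Set G) = ⊤ := top_unique
        ((T.normalizer_sup_eq_top' tO).ge.trans (sup_le le_sup_right ((syl (pO hp _) T).trans
          (sup_le_sup_left le_normalizer _))))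
      refine nF (hF.fit.top.1 (top_unique (aS (M ⊔ N) le_normalizer_of_normal fun x hx => ?_) ▸
        hF.fit.2.2 _ _ _ ‹_› this (ih _ nM) (ih _ fun e => c e.ge)))
      obtain ⟨u, hu, v, hv, rfl⟩ := mem_sup_of_normal_left.1 (e ▸ mem_top x)
      exact mul_mem (mem_sup_left ((closure_le (K := M)).2 (fun y a => (closure_le (K := M)).2
        (fun z a => pm hq a.2) a.1) hu)) (mem_sup_right (b ⟨(mul_mem_cancel_left
        (mem_sup_left hu)).1 (mem_sup_right hx), hv⟩))))
  have lT : O M.index ⊤ ≤ T.1 := by_contra fun l =>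
    af _ le_sup_left (fun g => (abS S g).mono le_sup_right)
      (aS.mono (le_inf le_sup_right le_sup_right)) (top _ this l)
  have pT : PQ M.index T.1 ⊤ := fun g _ => (pO hq ⊤ g trivial).imp fun _ a => lT a
  have c : Cs F fun s => s.Prime ∧ (s = p ∨ W F s p) := by
    have : ∀ a b, a.Prime → b.Prime → W F a b → a = p ∨ W F a p → b = p ∨ W F b p :=
      fun a b ha hb w s => or_iff_not_imp_left.2 fun m =>
        have w' := Wk hF ha hb hb w (.inl rfl) w.2.1 w.2.2.1.symm
        s.elim (fun e => e ▸ w'.2) fun s => (Wk hF hp hb ha (Wk hF ha hp hp s (.inl rfl) s.2.1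
          s.2.2.1.symm).2 (.inr (Wk hF hb ha ha w'.2 (.inl rfl) w.1 w.2.2.1).1) w.2.1 m).2
    exact fun a b ha hb w => ⟨fun s => ⟨hb, this a b ha hb w s.2⟩, fun s => ⟨ha, this b a hb ha
      (Wk hF ha hb hb w (.inl rfl) w.2.1 w.2.2.1.symm).2 s.2⟩⟩
  by_cases w : W F M.index p
  · have w' := (Wk hF hq hp hp w (.inl rfl) w.2.1 n).2
    exact nF ((Wk hF hp hq hq w' (.inl rfl) w.1 n.symm).1 G T.1 T.2 pT)
  have dT : D F (⊤ : Subgroup G) := h.inj _ (subtype_injective _)
  have : S.1 = sb ⊤ dT c.not := (S.3 (fun x => by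
      obtain ⟨k, hk⟩ := pT x trivial
      obtain ⟨j, hj⟩ := T.2 ⟨_, hk⟩
      refine ⟨k, Subtype.ext (El.both (El.pr (k := j) ?_ hp ⟨hp, .inl rfl⟩) (pow_mem x.2 _).2)⟩
      exact (show (x.1 ^ M.index ^ k) ^ p ^ j = 1 from congrArg Subtype.val hj) ▸ .one)
    fun x hx => by
      obtain ⟨j, hj⟩ := S.2 ⟨x, hx⟩
      exact ⟨trivial, El.pr (k := j) ((show x ^ M.index ^ j = 1 from congrArg Subtype.val hj) ▸
        .one) hq fun s => s.2.elim n.symm w⟩).symm
  exact top ⊥ inferInstance (fun l => h0 (le_bot_iff.1 l)) (top_unique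
    ((normalizer_eq_top_iff.2 (this ▸ inferInstance : S.1.Normal)).ge.trans le_sup_right))

theorem idx (hF : AFc F) (h : F G) {M : Subgroup G} [M.Normal] (hq : M.index.Prime) :
    Pi F M.index := by
  have := Fact.mk hq
  let γ : G →* G × G ⧸ M := (MonoidHom.id G).prod (QuotientGroup.mk' M)
  have c : IsCyclic (G ⧸ M) := isCyclic_of_prime_card (p := M.index) rfl
  have : γ.range.Normal := ⟨by
    rintro _ ⟨a, rfl⟩ ⟨g, u⟩
    refine ⟨g * a * g⁻¹, Prod.ext rfl ?_⟩
    letI := c.commGroup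
    simp [γ]⟩
  have f : F (G ⧸ M) := hF.top.2 fun u => by
    obtain ⟨g, rfl⟩ := QuotientGroup.mk_surjective u
    have := mul_mem (inv_mem ((rad_iff hF.fit hF.u (MonoidHom.inl G (G ⧸ M))
      (fun _ _ e => congrArg Prod.fst e) g).2 (hF.top.1 h g))) ((rad_iff hF.fit hF.u γ
      (fun _ _ e => congrArg Prod.fst e) g).2 (hF.top.1 h g))
    exact (rad_iff hF.fit hF.u (MonoidHom.inr G (G ⧸ M)) (fun _ _ e => congrArg Prod.snd e) _).1
      (by simpa [γ] using this)
  obtain ⟨b, hb⟩ := exists_prime_orderOf_dvd_card' (G := G ⧸ M) M.index dvd_rfl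
  have := (IsPGroup.of_card (p := M.index) (G := G ⧸ M) (pow_one _).symm).isNilpotent
  exact fun _ _ _ => hF.fit.pgroup hb (hF.fit.sub f _)

theorem FD (hF : AFc F) : ∀ (n : ℕ) (G : Type) [Group G] [Finite G] [Group.IsSolvable G],
    Nat.card G = n → F G → D F G := fun n => by
  induction n using Nat.strong_induction_on with
  | _ n IH =>
  intro G _ _ hs e h
  have ih : ∀ U : Subgroup G, U.Normal → U ≠ ⊤ → D F U := fun U n hU =>
    IH _ (e ▸ lt_card hU) U rfl (hF.fit.2.1 _ _ n h)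
  rcases subsingleton_or_nontrivial G with _ | _
  · exact ⟨fun g => Subsingleton.elim 1 g ▸ .one, fun _ _ x y _ _ => Subsingleton.elim 1 (x * y) ▸ .one⟩
  obtain ⟨M, _, hr, -⟩ := exM (G := G)
  have dM := ih M ‹_› fun e => hr.ne_one (index_eq_one.2 e)
  have := Fact.mk hr
  have πr := idx hF h hr
  have pM : PQ M.index M ⊤ := fun g _ => ⟨1, by rw [pow_one]; exact M.pow_index_mem g⟩
  have π : ∀ x : G, El (Pi F) x := fun x => El.pr (k := 1) (by
    rw [pow_one]; exact (dM.1 ⟨_, M.pow_index_mem x⟩).map M.subtype) hr πr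
  refine ⟨π, fun σ s x y hx hy => ?_⟩
  by_cases hσ : ¬ σ M.index
  · exact ((sb M dM s).mul_mem ⟨pm hr fun e => hσ (hx _ hr e), hx⟩
      ⟨pm hr fun e => hσ (hy _ hr e), hy⟩).2
  rw [not_not] at hσ
  set H := sb M dM s.not
  set J := sb M dM s
  have dis : ∀ z ∈ J, z ∈ H → z = 1 := fun z a b => a.2.both b.2
  have sp : ∀ m ∈ M, ∃ l ∈ J, ∃ z ∈ H, l * z = m := fun m hm => by
    obtain ⟨a, b, h1, h2, e⟩ := spl σ m
    exact mem_sup_of_normal_left.1 (bez (Nat.coprime_of_dvd' fun q c d f => (h2 q c f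
      (h1 q c d)).elim) (mem_sup_right ⟨pow_mem hm a, El.of (by rw [← pow_mul, e]; exact .one) h2⟩)
      (mem_sup_left ⟨pow_mem hm b, El.of (by rw [← pow_mul, mul_comm, e]; exact .one) h1⟩))
  have cen : ∀ S : Sylow M.index G, S.1 ≤ centralizer H := fun S u hu z hz => by
    have eS : ∀ u ∈ S.1, El σ u := fun u hu => by
      obtain ⟨j, hj⟩ := S.2 ⟨u, hu⟩
      exact El.pr (k := j) ((show u ^ M.index ^ j = 1 from congrArg Subtype.val hj) ▸ .one) hr hσ
    by_cases e : normalClosure (S.1 : Set G) ≠ ⊤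
    · have a := subset_normalClosure (s := (S.1 : Set G)) hu
      have := ((ih _ inferInstance e).2 σ s ⟨_, Normal.conj_mem inferInstance _ a z⟩ ⟨_, inv_mem a⟩
        (((eS u hu).conj z).dvd (orderOf_mk ..).dvd) ((eS u hu).inv.dvd (orderOf_mk ..).dvd)).map
        (Subgroup.subtype _)
      exact commutatorElement_eq_one_iff_mul_comm.1 (El.both this
        (commutator_le_left H ⊤ (commutator_mem_commutator hz (mem_top u))).2)
    rw [not_not] at e
    by_cases h0 : H = ⊥
    · rw [mem_bot.1 (h0.le hz)]; simp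
    obtain ⟨p, hp, ⟨w, w1, w2⟩, l⟩ := exN h0
    have := Fact.mk hp
    have np : ¬ σ p := w1.2 p hp w2.symm.dvd
    have n : M.index ≠ p := fun e => np (e ▸ hσ)
    obtain ⟨w', w3, w4⟩ := SetLike.not_le_iff_exists.1 l
    let ρ := QuotientGroup.mk' (J ⊔ (⁅H, H⁆ ⊔ O p H))
    have sρ : Function.Surjective ρ := QuotientGroup.mk'_surjective _
    have pH : IsPGroup p (H.map ρ) := by
      rintro ⟨_, u, hu, rfl⟩
      exact (pO hp H u hu).imp fun _ e => Subtype.ext ((QuotientGroup.eq_one_iff _).2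
        (mem_sup_right (mem_sup_right e)))
    have pS := S.2.map ρ
    have := Normal.map (inferInstance : H.Normal) ρ sρ
    have dc : ∀ g, ∃ z ∈ H, ∃ u ∈ S.1, ρ g = ρ z * ρ u := fun g => by
      obtain ⟨m, hm, u, hu, rfl⟩ := mem_sup_of_normal_left.1 (syl pM S (mem_top g))
      obtain ⟨l, hl, z, hz, rfl⟩ := sp m hm
      exact ⟨z, hz, u, hu, by
        rw [map_mul, map_mul, show ρ l = 1 from (QuotientGroup.eq_one_iff _).2 (mem_sup_left hl),
          one_mul]⟩
    have nJ : (⁅H.map ρ, S.1.map ρ⁆ ⊔ S.1.map ρ).Normal := ⟨fun a ha g => by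
      obtain ⟨g, rfl⟩ := sρ g
      obtain ⟨z, hz, u, hu, e⟩ := dc g
      refine e ▸ nm (mul_mem (mkn (fun g hg a ha => (sup_le (fun b hb => mem_sup_left
        (nm (normalizer_commutator_ge_left _ _ hg) hb)) (fun b hb => ?_) : _ ≤ comap
        (MulAut.conj g).toMonoidHom (⁅H.map ρ, S.1.map ρ⁆ ⊔ S.1.map ρ)) ha) (mem_map_of_mem ρ hz))
        (le_normalizer (mem_sup_right (mem_map_of_mem ρ hu)))) ha
      simpa [commutatorElement_def] using mul_mem (mem_sup_left (commutator_mem_commutator hg hb))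
        (mem_sup_right hb)⟩
    have pA : IsPGroup M.index ((normalizer (S : Set G)).map ρ) := pS.to_le (by
      rintro _ ⟨a, ha, rfl⟩
      obtain ⟨z, hz, u, hu, e'⟩ := dc a
      have z1 : ρ z ∈ normalizer (S.1.map ρ : Set _) := (mul_mem_cancel_right
        (le_normalizer (mem_map_of_mem ρ hu))).1 (e' ▸ le_normalizer_map ρ ⟨a, ha, rfl⟩)
      have cH := commutator_le_left (H.map ρ) (S.1.map ρ)
      have : ρ z ∈ ⁅H.map ρ, S.1.map ρ⁆ ⊔ S.1.map ρ := normalClosure_le_normal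
        (N := comap ρ (⁅H.map ρ, S.1.map ρ⁆ ⊔ S.1.map ρ)) (fun u hu => mem_sup_right (mem_map_of_mem ρ hu)) (e ▸ mem_top z)
      obtain ⟨j, hj, v, hv, e''⟩ := dec (normalizer_commutator_ge_right _ _) this
      rw [tr n.symm pH pS ((mul_mem_cancel_left (cH hj)).1 (e'' ▸ mem_map_of_mem ρ hz)) hv,
        mul_one] at e''
      rw [e', ← e'', fix n.symm pH pS le_normalizer_of_normal (by
        rintro _ ⟨a, ha, rfl⟩ _ ⟨b, hb, rfl⟩
        exact commutatorElement_eq_one_iff_commute.1 ((QuotientGroup.eq_one_iff ⁅a, b⁆).2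
          (mem_sup_right (mem_sup_left (commutator_mem_commutator ha hb))))) hj fun b hb =>
        (commutatorElement_eq_one_iff_mul_comm.1 (tr n.symm pH pS
          (cH (commutator_mem_commutator (cH hj) hb)) (by
            simpa [commutatorElement_def] using mul_mem (nm (e'' ▸ z1) hb) (inv_mem hb)))).symm,
        one_mul]
      exact mem_map_of_mem ρ hu)
    have fA : F (normalizer (S : Set G)) := by
      rw [show normalizer (S : Set G) = (M ⊓ normalizer (S : Set G)) ⊔ S.1 from le_antisymm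
        (fun a ha => by
          obtain ⟨m, hm, u, hu, rfl⟩ := mem_sup_of_normal_left.1 (syl pM S (mem_top a))
          exact mul_mem (mem_sup_left ⟨hm, (mul_mem_cancel_right (le_normalizer hu)).1 ha⟩)
            (mem_sup_right hu)) (sup_le inf_le_right le_normalizer)]
      exact hF.sup inf_le_right (mkn fun g hg a ha => ⟨Normal.conj_mem ‹_› a ha.1 g,
        nm (le_normalizer (le_normalizer hg)) ha.2⟩) (DF hF _ _ rfl (dM.inj _
        (inclusion_injective inf_le_left))) (πr _ S.2)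
    exact (np ((s _ _ hr hp (keyL hF ρ le_top le_normalizer_of_normal le_top (fun g _ => abS S g)
      (hF.fit.top.2 h) pH n (π w p hp w2.symm.dvd) πr (.inl ⟨pA, fA⟩) (mem_map_of_mem ρ w3)
      fun e => by
        obtain ⟨a, ha, b, hb, rfl⟩ := mem_sup_of_normal_left.1 ((QuotientGroup.eq_one_iff _).1 e)
        rw [dis a ha ((mul_mem_cancel_right (sup_le (commutator_le_self H)
          ((closure_le _).2 fun _ a => a.1) hb)).1 w3), one_mul] at w4
        exact w4 hb).2).1 hσ)).elim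
  have pJ : ∀ x, El σ x → x ^ M.index ∈ J := fun x hx =>
    ⟨M.pow_index_mem x, hx.dvd (orderOf_pow_dvd _)⟩
  have cx : x ∈ centralizer (H : Set G) := by
    obtain ⟨m, k, h1, h2⟩ := part hr x
    obtain ⟨S, hS⟩ := (pz h2).exists_le_sylow
    exact bez h1 (cen S (hS (mem_zpowers _))) fun z hz => commutatorElement_eq_one_iff_mul_comm.1
      (dis _ (commutator_le_right ⊤ J (commutator_mem_commutator (mem_top z) (pJ x hx)))
        (commutator_le_left H ⊤ (commutator_mem_commutator hz (mem_top _))))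
  have c : Commute (x : G ⧸ J) y := by
    by_cases e : x ∈ M
    · rw [(QuotientGroup.eq_one_iff x).2 (show x ∈ J from ⟨e, hx⟩)]
      exact Commute.one_left _
    have := (hr.eq_one_or_self_of_dvd _ (index_dvd_of_le (le_sup_left : M ≤ M ⊔ zpowers x))).resolve_right
      fun e' => e ((eq_of_le_of_card_ge le_sup_left (by
        have a := M.index_mul_card.trans (M ⊔ zpowers x).index_mul_card.symm
        rw [e'] at a
        exact (Nat.eq_of_mul_eq_mul_left hr.pos a).ge)).ge (mem_sup_right (mem_zpowers x)))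
    obtain ⟨m, hm, _, ⟨k, rfl⟩, rfl⟩ := mem_sup_of_normal_left.1 (index_eq_one.1 this ▸ mem_top y)
    obtain ⟨l, hl, z, hz, rfl⟩ := sp m hm
    simp only [QuotientGroup.mk_mul, QuotientGroup.mk_zpow, (QuotientGroup.eq_one_iff l).2 hl,
      one_mul]
    exact (Commute.map (cx z hz).symm (QuotientGroup.mk' J)).mul_right (Commute.self_zpow _ _)
  refine El.pr (k := 1) (And.right (show _ ∈ J from (QuotientGroup.eq_one_iff _).1 ?_)) hr hσ
  rw [pow_one, QuotientGroup.mk_pow, QuotientGroup.mk_mul, c.mul_pow, ← QuotientGroup.mk_pow,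
    ← QuotientGroup.mk_pow, (QuotientGroup.eq_one_iff _).2 (pJ x hx),
    (QuotientGroup.eq_one_iff _).2 (pJ y hy), one_mul]

theorem main (F : (G : Type) → [Group G] → Prop)
    (h0 : ∀ (G : Type) [Group G], F G → Finite G ∧ Group.IsSolvable G) (h1 : Fit F)
    (h2 : ∀ (G : Type) [Group G] [Finite G], Group.IsSolvable G → ∀ A B : Subgroup G,
      (∀ g, ab A g) → (∀ g, ab B g) → nc ⊤ (A ⊓ B) → F A → F B →
        (∀ g : G, ∃ a ∈ A, ∃ b ∈ B, a * b = g) → F G) :
    (∀ (G : Type) [Group G] (N : Subgroup G) [N.Normal], F G → F (G ⧸ N)) ∧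
      ∀ (G : Type) [Group G] [Finite G] (N M : Subgroup G) [N.Normal] [M.Normal],
        N ⊓ M = ⊥ → F (G ⧸ N) → F (G ⧸ M) → F G := by
  have a : ∀ (G : Type) [Group G], F G → AFc F := fun G _ h => have := (h0 G h).1
    ⟨h1, h1.1 _ _ ⟨MulEquiv.ofUnique⟩ (h1.2.1 G ⊥ inferInstance h), h2⟩
  refine ⟨fun G _ N _ h => ?_, fun G _ _ N M _ _ e h h' => ?_⟩
  · obtain ⟨_, _⟩ := h0 G h
    exact DF (a G h) _ _ rfl ((FD (a G h) _ _ rfl h).surj _ (QuotientGroup.mk'_surjective N))
  · have := (h0 _ h).2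
    have := (h0 _ h').2
    have := Group.isSolvable_of_isSolvable_injective
      (f := (QuotientGroup.mk' N).prod (QuotientGroup.mk' M))
      (by rw [← MonoidHom.ker_eq_bot_iff, MonoidHom.ker_prod]; simpa)
    exact DF (a _ h) _ _ rfl (D.r0 e (FD (a _ h) _ _ rfl h) (FD (a _ h) _ _ rfl h'))

end Pool.Agent.H.MP_25c7a1_al
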